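import Pool.Agent.W223.HZ.Stms

/-!
# Multilinear expansion bound
-/

set_option autoImplicit false

namespace Pool.Agent.W803.HZ.DET

open Finset

theorem sum_ge : ∀ (s : ℕ) (t : Finset ℕ), t.card = s → s * (s - 1) / 2 ≤ ∑ i ∈ t, i := by
  intro s
  induction s with
  | zero => intro t _; simp
  | succ s ih =>
    intro t ht
    have hne : t.Nonempty := by
      rw [← Finset.card_pos, ht]
      omega
    have h1 : t.card ≤ t.max' hne + 1 := by
      have : t ⊆ Finset.range (t.max' hne + 1) := by
        intro i hi
        rw [Finset.mem_range]
        have := Finset.le_max' t i hi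
        omega
      have := Finset.card_le_card this
      rwa [Finset.card_range] at this
    have h2 := ih (t.erase (t.max' hne)) (by
      rw [Finset.card_erase_of_mem (Finset.max'_mem t hne), ht]
      rfl)
    have h3 := Finset.add_sum_erase t (fun i => i) (Finset.max'_mem t hne)
    rw [Nat.triangle_succ]
    omega

theorem sum_ge' {n : Type} [Fintype n] [DecidableEq n] {M : ℕ} (f : n → Bool × Fin M)
    (hf : Function.Injective f) (b : Bool) :
    (univ.filter fun i => (f i).1 = b).card * ((univ.filter fun i => (f i).1 = b).card - 1) / 2 ≤
      ∑ i ∈ univ.filter (fun i => (f i).1 = b), ((f i).2 : ℕ) := by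
  have hinj : Set.InjOn (fun i => ((f i).2 : ℕ)) (univ.filter fun i => (f i).1 = b : Finset n) := by
    intro i hi j hj hij
    simp only [Finset.coe_filter, Finset.mem_univ, true_and, Set.mem_ofPred_eq] at hi hj
    apply hf
    exact Prod.ext (hi.trans hj.symm) (Fin.ext hij)
  have h := sum_ge _ ((univ.filter fun i => (f i).1 = b).image fun i => ((f i).2 : ℕ)) rfl
  rw [Finset.card_image_of_injOn hinj, Finset.sum_image hinj] at h
  exact h

theorem t : Pool.Agent.W223.HZ.StmtDET := by
  intro n _ _ M v w ρ hρ hv hw z ε δ e hz hδ hε Y hY
  rcases isEmpty_or_nonempty n with hn | hn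
  · have h0 := hY 0 (Nat.zero_le _)
    rw [Matrix.det_isEmpty]
    simp only [Fintype.card_eq_zero, Nat.factorial_zero, pow_zero, Finset.univ_eq_empty,
      Finset.prod_empty] at h0 ⊢
    simpa using h0
  · obtain ⟨i0⟩ := hn
    have hδ0 : 0 ≤ δ := (abs_nonneg _).trans (hz i0)
    have he0 : 0 ≤ e := (abs_nonneg _).trans (hε i0)
    have hY0 : 0 ≤ Y := by
      have := hY 0 (Nat.zero_le _)
      refine le_trans ?_ this
      positivity
    have hP0 : 0 ≤ ∏ j, ρ j := Finset.prod_nonneg fun j _ => hρ j
    let V : Bool × Fin M → n → ℝ := fun κ => if κ.1 then w κ.2 else v κ.2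
    let c : n → Bool × Fin M → ℝ := fun i κ => (if κ.1 then ε i else 1) * z i ^ (κ.2 : ℕ)
    have hV : ∀ κ j, |V κ j| ≤ ρ j := by
      intro κ j
      simp only [V]
      split_ifs
      · exact hw _ _
      · exact hv _ _
    have hrow : (Matrix.of fun i j : n => ∑ k : Fin M, z i ^ (k : ℕ) * (v k j + ε i * w k j)) =
        fun i => ∑ κ : Bool × Fin M, c i κ • V κ := by
      funext i j
      rw [Finset.sum_apply, Fintype.sum_prod_type, Fintype.sum_bool, ← Finset.sum_add_distrib]
      simp only [Matrix.of_apply]
      refine Finset.sum_congr rfl fun k _ => ?_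
      simp only [V, c, Pi.smul_apply, smul_eq_mul, if_true, Bool.false_eq_true, if_false]
      ring
    have hdet : Matrix.det (Matrix.of fun i j : n =>
        ∑ k : Fin M, z i ^ (k : ℕ) * (v k j + ε i * w k j)) =
        ∑ f : n → Bool × Fin M, (∏ i, c i (f i)) * Matrix.det (Matrix.of fun i => V (f i)) := by
      rw [hrow]
      have h1 := (Matrix.detRowAlternating (n := n) (R := ℝ)).toMultilinearMap.map_sum
        (fun (i : n) (κ : Bool × Fin M) => c i κ • V κ)
      have h2 : ∀ f : n → Bool × Fin M,
          (Matrix.detRowAlternating (n := n) (R := ℝ)).toMultilinearMap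
            (fun i => c i (f i) • V (f i)) = (∏ i, c i (f i)) * Matrix.det (Matrix.of fun i => V (f i)) :=
        fun f => by
          rw [MultilinearMap.map_smul_univ, smul_eq_mul]
          rfl
      simp only [h2] at h1
      exact h1
    rw [hdet]
    refine (Finset.abs_sum_le_sum_abs _ _).trans ?_
    have hterm : ∀ f : n → Bool × Fin M,
        |(∏ i, c i (f i)) * Matrix.det (Matrix.of fun i => V (f i))| ≤
          (Fintype.card n).factorial * (∏ j, ρ j) * Y := by
      intro f
      by_cases hf : Function.Injective f
      · have hd : |Matrix.det (Matrix.of fun i => V (f i))| ≤ (Fintype.card n).factorial * ∏ j, ρ j := by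
          rw [Matrix.det_apply]
          refine (Finset.abs_sum_le_sum_abs _ _).trans ?_
          have : ∀ σ : Equiv.Perm n, |Equiv.Perm.sign σ • ∏ i, V (f (σ i)) i| ≤ ∏ j, ρ j := by
            intro σ
            have h1 : |Equiv.Perm.sign σ • ∏ i, V (f (σ i)) i| = |∏ i, V (f (σ i)) i| := by
              rcases Int.units_eq_one_or (Equiv.Perm.sign σ) with h | h <;> rw [h] <;> simp
            rw [h1, Finset.abs_prod]
            exact Finset.prod_le_prod (fun _ _ => abs_nonneg _) fun j _ => hV _ _
          refine (Finset.sum_le_sum fun σ _ => this σ).trans ?_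
          rw [Finset.sum_const, Finset.card_univ, Fintype.card_perm, nsmul_eq_mul]
        have hc : |∏ i, c i (f i)| ≤ Y := by
          rw [Finset.abs_prod]
          have h1 : ∏ i, |c i (f i)| ≤ ∏ i, (if (f i).1 then e else 1) * δ ^ ((f i).2 : ℕ) := by
            refine Finset.prod_le_prod (fun _ _ => abs_nonneg _) fun i _ => ?_
            simp only [c]
            rw [abs_mul, abs_pow]
            refine mul_le_mul ?_ (pow_le_pow_left₀ (abs_nonneg _) (hz i) _) (by positivity) ?_
            · split_ifs
              · exact hε i
              · simp
            · split_ifs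
              · exact he0
              · norm_num
          refine h1.trans ?_
          rw [Finset.prod_mul_distrib, Finset.prod_pow_eq_pow_sum, Finset.prod_ite,
            Finset.prod_const_one, mul_one, Finset.prod_const]
          have hs : (univ.filter fun i => (f i).1 = true).card ≤ Fintype.card n :=
            (Finset.card_le_univ _)
          refine le_trans ?_ (hY _ hs)
          refine mul_le_mul_of_nonneg_left ?_ (by positivity)
          refine pow_le_pow_of_le_one hδ0 hδ ?_
          have ht := sum_ge' f hf true
          have hff := sum_ge' f hf false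
          have hcard : (univ.filter fun i => (f i).1 = false).card =
              Fintype.card n - (univ.filter fun i => (f i).1 = true).card := by
            have h3 := Finset.card_filter_add_card_filter_not (s := (univ : Finset n))
              (fun i => (f i).1 = true)
            rw [Finset.card_univ] at h3
            have h4 : (univ.filter fun i => ¬ (f i).1 = true) =
                univ.filter fun i => (f i).1 = false := by
              refine Finset.filter_congr fun i _ => ?_
              simp
            rw [h4] at h3
            omega
          rw [hcard] at hff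
          have hsum : ∑ i, ((f i).2 : ℕ) =
              ∑ i ∈ univ.filter (fun i => (f i).1 = true), ((f i).2 : ℕ) +
                ∑ i ∈ univ.filter (fun i => (f i).1 = false), ((f i).2 : ℕ) := by
            rw [← Finset.sum_filter_add_sum_filter_not univ (fun i => (f i).1 = true)]
            congr 1
            refine Finset.sum_congr (Finset.filter_congr fun i _ => ?_) fun _ _ => rfl
            simp
          rw [hsum]
          omega
        rw [abs_mul]
        calc |∏ i, c i (f i)| * |Matrix.det (Matrix.of fun i => V (f i))|
            ≤ Y * ((Fintype.card n).factorial * ∏ j, ρ j) :=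
              mul_le_mul hc hd (abs_nonneg _) hY0
          _ = _ := by ring
      · have hd : Matrix.det (Matrix.of fun i => V (f i)) = 0 := by
          rw [Function.not_injective_iff] at hf
          obtain ⟨i, j, hij, hne⟩ := hf
          exact Matrix.det_zero_of_row_eq hne (congrArg V hij)
        rw [hd, mul_zero, abs_zero]
        positivity
    refine (Finset.sum_le_sum fun f _ => hterm f).trans ?_
    rw [Finset.sum_const, Finset.card_univ, Fintype.card_fun, Fintype.card_prod, Fintype.card_bool,
      Fintype.card_fin, nsmul_eq_mul]
    push_cast
    apply le_of_eq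
    ring

end Pool.Agent.W803.HZ.DET
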